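import Mathlib

/-!
# Square roots of metric spaces under the Euclidean product metric

The metric spaces `A = ℚ` and `B = √2 ℚ` (both with the metric of the real line) are not isometric,
but their squares with the Euclidean product metric are isometric: the rotation of the plane by
45 degrees maps `ℚ × ℚ` onto `√2 ℚ × √2 ℚ`.
-/

namespace Pool.Agent.Results.MP_1231ed_gt.SquareRoots

/-- The Euclidean product metric on `A × A`:
`ρ((a₁, a₂), (a₃, a₄)) = (ρ(a₁, a₃)² + ρ(a₂, a₄)²)^(1/2)`. -/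
noncomputable def sqDist (A : Type) [MetricSpace A] (x y : A × A) : ℝ :=
  Real.sqrt (dist x.1 y.1 ^ 2 + dist x.2 y.2 ^ 2)

/-- The set `√2 ℚ` of reals. -/
def sqrtTwoQ : Set ℝ := {x : ℝ | ∃ q : ℚ, x = Real.sqrt 2 * q}

/-- The set `ℚ` of reals. -/
def ratQ : Set ℝ := {x : ℝ | ∃ q : ℚ, x = q}

lemma fwd_mem_1 {x y : ℝ} (hx : x ∈ ratQ) (hy : y ∈ ratQ) :
    (x - y) / Real.sqrt 2 ∈ sqrtTwoQ ∧ (x + y) / Real.sqrt 2 ∈ sqrtTwoQ := by
  obtain ⟨p, rfl⟩ := hx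
  obtain ⟨q, rfl⟩ := hy
  have h2 : Real.sqrt 2 * Real.sqrt 2 = 2 := Real.mul_self_sqrt (by norm_num)
  have h0 : Real.sqrt 2 ≠ 0 := by positivity
  refine ⟨⟨(p - q) / 2, ?_⟩, ⟨(p + q) / 2, ?_⟩⟩
  · rw [div_eq_iff h0]; push_cast; linear_combination -((p : ℝ) - q) / 2 * h2
  · rw [div_eq_iff h0]; push_cast; linear_combination -((p : ℝ) + q) / 2 * h2

lemma bwd_mem {u v : ℝ} (hu : u ∈ sqrtTwoQ) (hv : v ∈ sqrtTwoQ) :
    (u + v) / Real.sqrt 2 ∈ ratQ ∧ (v - u) / Real.sqrt 2 ∈ ratQ := by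
  obtain ⟨p, rfl⟩ := hu
  obtain ⟨q, rfl⟩ := hv
  have h0 : Real.sqrt 2 ≠ 0 := by positivity
  refine ⟨⟨p + q, ?_⟩, ⟨q - p, ?_⟩⟩
  · rw [div_eq_iff h0]; push_cast; ring
  · rw [div_eq_iff h0]; push_cast; ring

/-- The rotation by 45 degrees as a bijection of `ℚ²` onto `(√2 ℚ)²`. -/
noncomputable def rot : (ratQ × ratQ) ≃ (sqrtTwoQ × sqrtTwoQ) where
  toFun x := (⟨((x.1 : ℝ) - x.2) / Real.sqrt 2, (fwd_mem_1 x.1.2 x.2.2).1⟩,
    ⟨((x.1 : ℝ) + x.2) / Real.sqrt 2, (fwd_mem_1 x.1.2 x.2.2).2⟩)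
  invFun u := (⟨((u.1 : ℝ) + u.2) / Real.sqrt 2, (bwd_mem u.1.2 u.2.2).1⟩,
    ⟨((u.2 : ℝ) - u.1) / Real.sqrt 2, (bwd_mem u.1.2 u.2.2).2⟩)
  left_inv x := by
    have h2 : Real.sqrt 2 * Real.sqrt 2 = 2 := Real.mul_self_sqrt (by norm_num)
    have h0 : Real.sqrt 2 ≠ 0 := by positivity
    refine Prod.ext (Subtype.ext ?_) (Subtype.ext ?_)
    · simp only
      field_simp
      linear_combination -(x.1 : ℝ) * h2
    · simp only
      field_simp
      linear_combination -(x.2 : ℝ) * h2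
  right_inv u := by
    have h2 : Real.sqrt 2 * Real.sqrt 2 = 2 := Real.mul_self_sqrt (by norm_num)
    have h0 : Real.sqrt 2 ≠ 0 := by positivity
    refine Prod.ext (Subtype.ext ?_) (Subtype.ext ?_)
    · simp only
      field_simp
      linear_combination -(u.1 : ℝ) * h2
    · simp only
      field_simp
      linear_combination -(u.2 : ℝ) * h2

lemma rot_dist (x y : ratQ × ratQ) : sqDist sqrtTwoQ (rot x) (rot y) = sqDist ratQ x y := by
  have h2 : Real.sqrt 2 * Real.sqrt 2 = 2 := Real.mul_self_sqrt (by norm_num)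
  have h0 : Real.sqrt 2 ≠ 0 := by positivity
  unfold sqDist
  congr 1
  simp only [rot, Equiv.coe_fn_mk, Subtype.dist_eq, Real.dist_eq, sq_abs]
  field_simp
  ring_nf
  have h3 : Real.sqrt 2 ^ 2 = 2 := Real.sq_sqrt (by norm_num)
  rw [h3]
  ring

lemma not_isometric : ¬ ∃ φ : ratQ ≃ sqrtTwoQ, ∀ x y, dist (φ x) (φ y) = dist x y := by
  rintro ⟨φ, hφ⟩
  have h := hφ ⟨1, ⟨1, by norm_num⟩⟩ ⟨0, ⟨0, by norm_num⟩⟩
  obtain ⟨p, hp⟩ := (φ ⟨1, ⟨1, by norm_num⟩⟩).2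
  obtain ⟨q, hq⟩ := (φ ⟨0, ⟨0, by norm_num⟩⟩).2
  rw [Subtype.dist_eq, Subtype.dist_eq, hp, hq, Real.dist_eq, Real.dist_eq, ← mul_sub, abs_mul,
    abs_of_nonneg (Real.sqrt_nonneg 2)] at h
  norm_num at h
  have hirr : Irrational (Real.sqrt 2) := irrational_sqrt_two
  have h1 : ((|p - q| : ℚ) : ℝ) = |(p : ℝ) - q| := by push_cast; rfl
  rw [← h1] at h
  have hne : (|p - q| : ℚ) ≠ 0 := by
    intro h0
    rw [h0] at h
    norm_num at h
  apply hirr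
  refine ⟨(|p - q| : ℚ)⁻¹, ?_⟩
  have hne' : ((|p - q| : ℚ) : ℝ) ≠ 0 := by exact_mod_cast hne
  rw [Rat.cast_inv, inv_eq_iff_eq_inv, eq_comm]
  exact inv_eq_of_mul_eq_one_right h

/-- There are metric spaces `A` and `B` that are not isometric while `A²` and `B²`, with the
Euclidean product metric, are isometric. -/
theorem result : ∃ (A B : Type) (_ : MetricSpace A) (_ : MetricSpace B),
    (¬ ∃ φ : A ≃ B, ∀ x y, dist (φ x) (φ y) = dist x y) ∧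
    ∃ ψ : (A × A) ≃ (B × B), ∀ x y, sqDist B (ψ x) (ψ y) = sqDist A x y :=
  ⟨ratQ, sqrtTwoQ, inferInstance, inferInstance, not_isometric, rot, rot_dist⟩

end Pool.Agent.Results.MP_1231ed_gt.SquareRoots
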